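import Pool.Agent.Helper28.WK.StA
import Pool.Agent.Helper22.CV.M_CoreOf

/-!
# Project WK: module Nex
-/

set_option autoImplicit false

namespace Pool.Agent.Helper13.WK

open Pool.Agent.Helper14.CV Pool.Agent.Helper28.WK Pool.Agent.Helper22.CV

theorem hNex : StNex := by
  intro h3a h3b hUB hLB m G0 G1 hm hG0 hG1 hev
  by_cases hm4 : m ≤ 4
  · obtain ⟨Θ, hΘ⟩ := hUB m hm
    have hd : dd m = 0 := by
      unfold dd
      rw [if_pos hm4]
    have h0 : Θ ⟨G1, hG1⟩ = 0 := by
      funext k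
      have := k.2
      omega
    exact hΘ ⟨G1, hG1⟩ h0
  · have hm5 : 5 ≤ m := by omega
    by_contra hne
    by_cases hv : evL G1 = 0
    · exact hne (hCoreOf h3a h3b hUB hLB m G1 hm5 hG1 fun i j => congrFun (congrFun hv i) j)
    · obtain ⟨w1, w2, w3⟩ := W_bound hUB (n := m) (by omega)
      obtain ⟨v1, v2⟩ := V_bound h3a h3b hUB (m - 1) (by omega)
      have hle := V_le_of_B3a h3a (n := m) (by omega)
      have hfin : Module.Finite ℂ (V (m - 1) ⊔ W m : Submodule ℂ (ℕ → ℕ → ℂ)) :=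
        Submodule.finiteDimensional_sup _ _
      have hfinV : Module.Finite ℂ (V m) := Submodule.finiteDimensional_of_le hle
      have h1 := Submodule.finrank_mono hle
      have h2 := Submodule.finrank_sup_add_finrank_inf_eq (V (m - 1)) (W m)
      have h3 : DD m = DD (m - 1) + dd m := by
        obtain ⟨k, rfl⟩ : ∃ k, m = k + 1 := ⟨m - 1, by omega⟩
        rw [Nat.add_sub_cancel]
        unfold DD
        rw [Finset.sum_range_succ]
        ring
      obtain ⟨H, hH, hli⟩ := hLB m hm5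
      have hli' : LinearIndependent ℂ (fun k => (⟨evL (H k), ⟨H k, hH k, rfl⟩⟩ : V m)) := by
        refine LinearIndependent.of_comp (V m).subtype ?_
        exact hli
      have h4 := hli'.fintype_card_le_finrank
      rw [Fintype.card_fin] at h4
      have hmem : evL G1 ∈ V (m - 1) ⊓ W m := by
        refine ⟨⟨-G0, (XS (m - 1)).neg_mem hG0, ?_⟩, ⟨G1, hG1, rfl⟩⟩
        rw [map_neg]
        funext i j
        have h5 : ev 1 G0 i j + ev 1 G1 i j = 0 := hev i j
        show -(ev 1 G0 i j) = ev 1 G1 i j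
        exact (eq_neg_of_add_eq_zero_right h5).symm
      have hfi : Module.Finite ℂ (V (m - 1) ⊓ W m : Submodule ℂ (ℕ → ℕ → ℂ)) :=
        Submodule.finiteDimensional_inf_left _ _
      have hnt : Nontrivial (V (m - 1) ⊓ W m : Submodule ℂ (ℕ → ℕ → ℂ)) :=
        ⟨⟨⟨_, hmem⟩, 0, fun h0 => hv (congrArg Subtype.val h0)⟩⟩
      have h6 : 0 < Module.finrank ℂ (V (m - 1) ⊓ W m : Submodule ℂ (ℕ → ℕ → ℂ)) :=
        Module.finrank_pos (R := ℂ) (M := (V (m - 1) ⊓ W m : Submodule ℂ (ℕ → ℕ → ℂ)))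
      omega

end Pool.Agent.Helper13.WK
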